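import Pool.Agent.helper41.CL.Spec

/-!
# Row cl:DP (MP_d9d598_co, project CL): three injections
-/

set_option autoImplicit false

namespace Pool.Agent.helper41.CL

open Finset

section

variable {α : Type} [DecidableEq α]

/-- the first two maps -/
def DP_f (p q w : α) (C : Finset α) : Finset α := if p ∈ C ∨ q ∈ C then insert w C else insert p C

/-- the third map -/
def DP_h (a b y z : α) (C : Finset α) : Finset α :=
  if a ∈ C ∨ b ∈ C ∨ a = y ∨ a = z ∨ b = y ∨ b = z then insert y (insert z C) else insert a (insert b C)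

/-- the decoder -/
def DP_g (a b y z : α) (S : Finset α) : Finset α := if y ∈ S ∨ z ∈ S then S \ {y, z} else S \ {a, b}

theorem DP_gf1 {a b y z : α} {C : Finset α} (hy : y ∉ C) (hz : z ∉ C) :
    DP_g a b y z (DP_f a b y C) = C := by
  unfold DP_g DP_f
  by_cases h : a ∈ C ∨ b ∈ C
  · rw [if_pos h, if_pos (Or.inl (mem_insert_self _ _))]
    ext x
    simp only [mem_sdiff, mem_insert, mem_singleton]
    constructor
    · rintro ⟨h1 | h1, h2⟩
      · exact absurd (Or.inl h1) h2
      · exact h1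
    · intro h1
      refine ⟨Or.inr h1, ?_⟩
      rintro (rfl | rfl)
      · exact hy h1
      · exact hz h1
  · rw [if_neg h]
    push Not at h
    by_cases h2 : y ∈ insert a C ∨ z ∈ insert a C
    · rw [if_pos h2]
      have h3 : a = y ∨ a = z := by
        rcases h2 with h2 | h2
        · rcases mem_insert.mp h2 with h3 | h3
          · exact Or.inl h3.symm
          · exact absurd h3 hy
        · rcases mem_insert.mp h2 with h3 | h3
          · exact Or.inr h3.symm
          · exact absurd h3 hz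
      ext x
      simp only [mem_sdiff, mem_insert, mem_singleton]
      constructor
      · rintro ⟨h1 | h1, h4⟩
        · subst h1
          exact absurd h3 h4
        · exact h1
      · intro h1
        refine ⟨Or.inr h1, ?_⟩
        rintro (rfl | rfl)
        · exact hy h1
        · exact hz h1
    · rw [if_neg h2]
      ext x
      simp only [mem_sdiff, mem_insert, mem_singleton]
      constructor
      · rintro ⟨h1 | h1, h4⟩
        · exact absurd (Or.inl h1) h4
        · exact h1
      · intro h1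
        refine ⟨Or.inr h1, ?_⟩
        rintro (rfl | rfl)
        · exact h.1 h1
        · exact h.2 h1

theorem DP_g_swap (a b y z : α) (S : Finset α) : DP_g b a z y S = DP_g a b y z S := by
  unfold DP_g
  have h1 : ({z, y} : Finset α) = {y, z} := pair_comm _ _
  have h2 : ({b, a} : Finset α) = {a, b} := pair_comm _ _
  rw [h1, h2]
  by_cases h : y ∈ S ∨ z ∈ S
  · rw [if_pos h, if_pos h.symm]
  · rw [if_neg h, if_neg (fun h' => h h'.symm)]

theorem DP_gf2 {a b y z : α} {C : Finset α} (hy : y ∉ C) (hz : z ∉ C) :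
    DP_g a b y z (DP_f b a z C) = C := by
  rw [← DP_g_swap]
  exact DP_gf1 hz hy

theorem DP_gh {a b y z : α} {C : Finset α} (hy : y ∉ C) (hz : z ∉ C) :
    DP_g a b y z (DP_h a b y z C) = C := by
  unfold DP_g DP_h
  by_cases h : a ∈ C ∨ b ∈ C ∨ a = y ∨ a = z ∨ b = y ∨ b = z
  · rw [if_pos h, if_pos (Or.inl (mem_insert_self _ _))]
    ext x
    simp only [mem_sdiff, mem_insert, mem_singleton]
    constructor
    · rintro ⟨h1 | h1 | h1, h2⟩
      · exact absurd (Or.inl h1) h2
      · exact absurd (Or.inr h1) h2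
      · exact h1
    · intro h1
      refine ⟨Or.inr (Or.inr h1), ?_⟩
      rintro (rfl | rfl)
      · exact hy h1
      · exact hz h1
  · rw [if_neg h]
    push Not at h
    obtain ⟨h1, h2, h3, h4, h5, h6⟩ := h
    have h7 : ¬ (y ∈ insert a (insert b C) ∨ z ∈ insert a (insert b C)) := by
      simp only [mem_insert]
      rintro ((h | h | h) | (h | h | h))
      · exact h3 h.symm
      · exact h5 h.symm
      · exact hy h
      · exact h4 h.symm
      · exact h6 h.symm
      · exact hz h
    rw [if_neg h7]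
    ext x
    simp only [mem_sdiff, mem_insert, mem_singleton]
    constructor
    · rintro ⟨h8 | h8 | h8, h9⟩
      · exact absurd (Or.inl h8) h9
      · exact absurd (Or.inr h8) h9
      · exact h8
    · intro h8
      refine ⟨Or.inr (Or.inr h8), ?_⟩
      rintro (rfl | rfl)
      · exact h1 h8
      · exact h2 h8

theorem DP_ne {a b y z : α} {C : Finset α} (hab : a ≠ b) (hyz : y ≠ z) (hy : y ∉ C) :
    DP_f a b y C ≠ DP_f b a z C := by
  unfold DP_f
  by_cases h : a ∈ C ∨ b ∈ C
  · rw [if_pos h, if_pos h.symm]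
    intro h1
    have h2 : y ∈ insert z C := by
      rw [← h1]
      exact mem_insert_self _ _
    rcases mem_insert.mp h2 with h3 | h3
    · exact hyz h3
    · exact hy h3
  · rw [if_neg h, if_neg (fun h' => h h'.symm)]
    push Not at h
    intro h1
    have h2 : a ∈ insert b C := by
      rw [← h1]
      exact mem_insert_self _ _
    rcases mem_insert.mp h2 with h3 | h3
    · exact hab h3
    · exact h.1 h3

variable {V : Finset α} {E E' : Finset (Finset α)} {a b y z : α}

theorem DP_memV {C : Finset α} {c : ℕ} (hC : C ∈ cov (V \ {y, z}) E' c) :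
    C ⊆ V ∧ y ∉ C ∧ z ∉ C ∧ #C = c ∧ ∀ e ∈ E', ∃ x ∈ e, x ∈ C := by
  unfold cov at hC
  rw [mem_filter, mem_powersetCard] at hC
  obtain ⟨⟨h1, h2⟩, h3⟩ := hC
  refine ⟨fun x hx => (mem_sdiff.mp (h1 hx)).1, fun h => ?_, fun h => ?_, h2, h3⟩
  · have := (mem_sdiff.mp (h1 h)).2
    simp at this
  · have := (mem_sdiff.mp (h1 h)).2
    simp at this

theorem DP_f_mem {C : Finset α} {c : ℕ} {p q w : α} (hp : p ∈ V) (hw : w ∈ V) (hwC : w ∉ C)
    (hE : ∀ e ∈ E, e = {p, q} ∨ e ∈ E') (hCV : C ⊆ V) (hc : #C = c)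
    (hcov : ∀ e ∈ E', ∃ x ∈ e, x ∈ C) : DP_f p q w C ∈ cov V E (c + 1) := by
  unfold cov DP_f
  rw [mem_filter, mem_powersetCard]
  by_cases h : p ∈ C ∨ q ∈ C
  · rw [if_pos h]
    refine ⟨⟨insert_subset hw hCV, by rw [card_insert_of_notMem hwC, hc]⟩, ?_⟩
    intro e he
    rcases hE e he with rfl | he'
    · rcases h with h | h
      · exact ⟨p, by simp, mem_insert_of_mem h⟩
      · exact ⟨q, by simp, mem_insert_of_mem h⟩
    · obtain ⟨x, hx, hxC⟩ := hcov e he'
      exact ⟨x, hx, mem_insert_of_mem hxC⟩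
  · rw [if_neg h]
    push Not at h
    refine ⟨⟨insert_subset hp hCV, by rw [card_insert_of_notMem h.1, hc]⟩, ?_⟩
    intro e he
    rcases hE e he with rfl | he'
    · exact ⟨p, by simp, mem_insert_self _ _⟩
    · obtain ⟨x, hx, hxC⟩ := hcov e he'
      exact ⟨x, hx, mem_insert_of_mem hxC⟩

theorem DP_h_mem {C : Finset α} {c : ℕ} (hab : a ≠ b) (hyz : y ≠ z) (ha : a ∈ V) (hb : b ∈ V)
    (hy : y ∈ V) (hz : z ∈ V) (hyC : y ∉ C) (hzC : z ∉ C)
    (hE : ∀ e ∈ E, e = {a, b} ∨ e ∈ E') (hCV : C ⊆ V) (hc : #C = c)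
    (hcov : ∀ e ∈ E', ∃ x ∈ e, x ∈ C) : DP_h a b y z C ∈ cov V E (c + 2) := by
  unfold cov DP_h
  rw [mem_filter, mem_powersetCard]
  by_cases h : a ∈ C ∨ b ∈ C ∨ a = y ∨ a = z ∨ b = y ∨ b = z
  · rw [if_pos h]
    refine ⟨⟨insert_subset hy (insert_subset hz hCV), ?_⟩, ?_⟩
    · rw [card_insert_of_notMem, card_insert_of_notMem hzC, hc]
      rw [mem_insert]
      rintro (h1 | h1)
      · exact hyz h1
      · exact hyC h1
    · intro e he
      rcases hE e he with rfl | he'
      · rcases h with h | h | h | h | h | h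
        · exact ⟨a, by simp, by simp [h]⟩
        · exact ⟨b, by simp, by simp [h]⟩
        · exact ⟨a, by simp, by simp [h]⟩
        · exact ⟨a, by simp, by simp [h]⟩
        · exact ⟨b, by simp, by simp [h]⟩
        · exact ⟨b, by simp, by simp [h]⟩
      · obtain ⟨x, hx, hxC⟩ := hcov e he'
        exact ⟨x, hx, mem_insert_of_mem (mem_insert_of_mem hxC)⟩
  · rw [if_neg h]
    push Not at h
    obtain ⟨h1, h2, -⟩ := h
    refine ⟨⟨insert_subset ha (insert_subset hb hCV), ?_⟩, ?_⟩
    · rw [card_insert_of_notMem, card_insert_of_notMem h2, hc]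
      rw [mem_insert]
      rintro (h3 | h3)
      · exact hab h3
      · exact h1 h3
    · intro e he
      rcases hE e he with rfl | he'
      · exact ⟨a, by simp, mem_insert_self _ _⟩
      · obtain ⟨x, hx, hxC⟩ := hcov e he'
        exact ⟨x, hx, mem_insert_of_mem (mem_insert_of_mem hxC)⟩

end

theorem DP : DP_stmt := by
  intro α _ V E E' a b y z hab hyz ha hb hy hz hE _
  have hE2 : ∀ e ∈ E, e = {b, a} ∨ e ∈ E' := by
    intro e he
    rcases hE e he with h | h
    · left
      rw [h, pair_comm]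
    · exact Or.inr h
  -- the images of the first two maps
  have hsub1 : ∀ c, (cov (V \ {y, z}) E' c).image (DP_f a b y) ⊆ cov V E (c + 1) := by
    intro c S hS
    obtain ⟨C, hC, rfl⟩ := mem_image.mp hS
    obtain ⟨h1, h2, h3, h4, h5⟩ := DP_memV hC
    exact DP_f_mem ha hy h2 hE h1 h4 h5
  have hsub2 : ∀ c, (cov (V \ {y, z}) E' c).image (DP_f b a z) ⊆ cov V E (c + 1) := by
    intro c S hS
    obtain ⟨C, hC, rfl⟩ := mem_image.mp hS
    obtain ⟨h1, h2, h3, h4, h5⟩ := DP_memV hC
    exact DP_f_mem hb hz h3 hE2 h1 h4 h5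
  have hc1 : ∀ c, #((cov (V \ {y, z}) E' c).image (DP_f a b y)) = #(cov (V \ {y, z}) E' c) := by
    intro c
    apply card_image_of_injOn
    intro C hC C' hC' h
    obtain ⟨-, h2, h3, -⟩ := DP_memV (mem_coe.mp hC)
    obtain ⟨-, h2', h3', -⟩ := DP_memV (mem_coe.mp hC')
    have h' : DP_f a b y C = DP_f a b y C' := h
    rw [← DP_gf1 (a := a) (b := b) h2 h3, h', DP_gf1 h2' h3']
  have hc2 : ∀ c, #((cov (V \ {y, z}) E' c).image (DP_f b a z)) = #(cov (V \ {y, z}) E' c) := by
    intro c
    apply card_image_of_injOn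
    intro C hC C' hC' h
    obtain ⟨-, h2, h3, -⟩ := DP_memV (mem_coe.mp hC)
    obtain ⟨-, h2', h3', -⟩ := DP_memV (mem_coe.mp hC')
    have h' : DP_f b a z C = DP_f b a z C' := h
    rw [← DP_gf2 (a := a) (b := b) h2 h3, h', DP_gf2 h2' h3']
  have hdis : ∀ c, Disjoint ((cov (V \ {y, z}) E' c).image (DP_f a b y))
      ((cov (V \ {y, z}) E' c).image (DP_f b a z)) := by
    intro c
    rw [disjoint_left]
    intro S hS hS'
    obtain ⟨C, hC, rfl⟩ := mem_image.mp hS
    obtain ⟨C', hC', h⟩ := mem_image.mp hS'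
    obtain ⟨-, h2, h3, -⟩ := DP_memV hC
    obtain ⟨-, h2', h3', -⟩ := DP_memV hC'
    have h4 : C' = C := by
      rw [← DP_gf2 (a := a) (b := b) h2' h3', h, DP_gf1 h2 h3]
    rw [h4] at h
    exact DP_ne hab hyz h2 h.symm
  constructor
  · intro c
    calc 2 * #(cov (V \ {y, z}) E' c) = #((cov (V \ {y, z}) E' c).image (DP_f a b y)) +
          #((cov (V \ {y, z}) E' c).image (DP_f b a z)) := by rw [hc1, hc2]; ring
      _ = #((cov (V \ {y, z}) E' c).image (DP_f a b y) ∪ (cov (V \ {y, z}) E' c).image (DP_f b a z)) :=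
          (card_union_of_disjoint (hdis c)).symm
      _ ≤ #(cov V E (c + 1)) := card_le_card (union_subset (hsub1 c) (hsub2 c))
  · intro c
    have hsub3 : (cov (V \ {y, z}) E' c).image (DP_h a b y z) ⊆ cov V E (c + 2) := by
      intro S hS
      obtain ⟨C, hC, rfl⟩ := mem_image.mp hS
      obtain ⟨h1, h2, h3, h4, h5⟩ := DP_memV hC
      exact DP_h_mem hab hyz ha hb hy hz h2 h3 hE h1 h4 h5
    have hc3 : #((cov (V \ {y, z}) E' c).image (DP_h a b y z)) = #(cov (V \ {y, z}) E' c) := by
      apply card_image_of_injOn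
      intro C hC C' hC' h
      obtain ⟨-, h2, h3, -⟩ := DP_memV (mem_coe.mp hC)
      obtain ⟨-, h2', h3', -⟩ := DP_memV (mem_coe.mp hC')
      have h' : DP_h a b y z C = DP_h a b y z C' := h
      rw [← DP_gh (a := a) (b := b) h2 h3, h', DP_gh h2' h3']
    have hdis3 : Disjoint ((cov (V \ {y, z}) E' (c + 1)).image (DP_f a b y) ∪
        (cov (V \ {y, z}) E' (c + 1)).image (DP_f b a z)) ((cov (V \ {y, z}) E' c).image (DP_h a b y z)) := by
      rw [disjoint_left]
      intro S hS hS'
      obtain ⟨C', hC', h⟩ := mem_image.mp hS'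
      obtain ⟨-, h2', h3', h4', -⟩ := DP_memV hC'
      have hg : DP_g a b y z S = C' := by rw [← h, DP_gh h2' h3']
      rcases mem_union.mp hS with hS | hS
      · obtain ⟨C, hC, rfl⟩ := mem_image.mp hS
        obtain ⟨-, h2, h3, h4, -⟩ := DP_memV hC
        rw [DP_gf1 h2 h3] at hg
        rw [hg] at h4
        omega
      · obtain ⟨C, hC, rfl⟩ := mem_image.mp hS
        obtain ⟨-, h2, h3, h4, -⟩ := DP_memV hC
        rw [DP_gf2 h2 h3] at hg
        rw [hg] at h4
        omega
    calc 2 * #(cov (V \ {y, z}) E' (c + 1)) + #(cov (V \ {y, z}) E' c)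
        = #((cov (V \ {y, z}) E' (c + 1)).image (DP_f a b y)) +
          #((cov (V \ {y, z}) E' (c + 1)).image (DP_f b a z)) +
          #((cov (V \ {y, z}) E' c).image (DP_h a b y z)) := by rw [hc1, hc2, hc3]; ring
      _ = #(((cov (V \ {y, z}) E' (c + 1)).image (DP_f a b y) ∪
          (cov (V \ {y, z}) E' (c + 1)).image (DP_f b a z)) ∪ (cov (V \ {y, z}) E' c).image (DP_h a b y z)) := by
          rw [card_union_of_disjoint hdis3, card_union_of_disjoint (hdis (c + 1))]
      _ ≤ #(cov V E (c + 2)) :=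
          card_le_card (union_subset (union_subset (hsub1 (c + 1)) (hsub2 (c + 1))) hsub3)

end Pool.Agent.helper41.CL
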