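import Pool.Agent.helper47.CL.SpecD

set_option autoImplicit false

namespace Pool.Agent.helper41.CL

open Finset

theorem NT_mem_av {α : Type} [DecidableEq α] {E : Finset (Finset α)} {S e : Finset α} :
    e ∈ av E S ↔ e ∈ E ∧ Disjoint e S := by
  unfold av
  exact mem_filter

theorem NT_mem_ind {α : Type} [DecidableEq α] {V : Finset α} {E : Finset (Finset α)} {k : ℕ}
    {I : Finset α} : I ∈ ind V E k ↔ (I ⊆ V ∧ #I = k) ∧ ∀ e ∈ E, ¬ e ⊆ I := by
  unfold ind
  rw [mem_filter, mem_powersetCard]

theorem NT : NT_stmt := by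
  intro α _ V E p a b hG hdeg hTw hab
  obtain ⟨hne, hpa, hpb, hpaE, hpbE, honly⟩ := hTw
  have hinc2 : ∀ x : α, ∀ e f : Finset α, e ∈ E → f ∈ E → x ∈ e → x ∈ f → e ≠ f →
      ∀ g ∈ E, x ∈ g → g = e ∨ g = f := by
    intro x e f he hf hxe hxf hef g hg hxg
    by_contra hcon
    push Not at hcon
    have hsub : ({g, e, f} : Finset (Finset α)) ⊆ inc E x := by
      intro z hz
      simp only [mem_insert, mem_singleton] at hz
      unfold inc
      rw [mem_filter]
      rcases hz with rfl | rfl | rfl
      · exact ⟨hg, hxg⟩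
      · exact ⟨he, hxe⟩
      · exact ⟨hf, hxf⟩
    have hc : #({g, e, f} : Finset (Finset α)) = 3 := by
      rw [card_eq_three]
      exact ⟨g, e, f, hcon.1, hcon.2, hef, rfl⟩
    have h1 := card_le_card hsub
    have h2 := hdeg x
    omega
  have hd1 : ({p, a} : Finset α) ≠ {a, b} := by
    intro h
    have : p ∈ ({a, b} : Finset α) := by rw [← h]; simp
    simp only [mem_insert, mem_singleton] at this
    rcases this with h' | h'
    · exact hpa h'
    · exact hpb h'
  have hd2 : ({p, b} : Finset α) ≠ {a, b} := by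
    intro h
    have : p ∈ ({a, b} : Finset α) := by rw [← h]; simp
    simp only [mem_insert, mem_singleton] at this
    rcases this with h' | h'
    · exact hpa h'
    · exact hpb h'
  have hd3 : ({p, a} : Finset α) ≠ {p, b} := by
    intro h
    have : a ∈ ({p, b} : Finset α) := by rw [← h]; simp
    simp only [mem_insert, mem_singleton] at this
    rcases this with h' | h'
    · exact hpa h'.symm
    · exact hne h'
  have hA : ∀ g ∈ E, a ∈ g → g = {p, a} ∨ g = {a, b} :=
    hinc2 a _ _ hpaE hab (by simp) (by simp) hd1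
  have hB : ∀ g ∈ E, b ∈ g → g = {p, b} ∨ g = {a, b} :=
    hinc2 b _ _ hpbE hab (by simp) (by simp) hd2
  have hmeet : ∀ e ∈ E, ¬ Disjoint e {p, a, b} → e = {p, a} ∨ e = {p, b} ∨ e = {a, b} := by
    intro e he hnd
    rw [not_disjoint_iff] at hnd
    obtain ⟨x, hxe, hx⟩ := hnd
    simp only [mem_insert, mem_singleton] at hx
    rcases hx with rfl | rfl | rfl
    · rcases honly e he hxe with h | h
      · exact Or.inl h
      · exact Or.inr (Or.inl h)
    · rcases hA e he hxe with h | h
      · exact Or.inl h
      · exact Or.inr (Or.inr h)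
    · rcases hB e he hxe with h | h
      · exact Or.inr (Or.inl h)
      · exact Or.inr (Or.inr h)
  have hmeet' : ∀ e ∈ E, ¬ Disjoint e {p, a, b} → e ⊆ {p, a, b} := by
    intro e he hnd
    rcases hmeet e he hnd with h | h | h
    · rw [h]; intro z hz; simp only [mem_insert, mem_singleton] at hz ⊢; tauto
    · rw [h]; intro z hz; simp only [mem_insert, mem_singleton] at hz ⊢; tauto
    · rw [h]; intro z hz; simp only [mem_insert, mem_singleton] at hz ⊢; tauto
  have hpair : ∀ u ∈ ({p, a, b} : Finset α), ∀ v ∈ ({p, a, b} : Finset α), u ≠ v →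
      ({u, v} : Finset α) ∈ E := by
    intro u hu v hv huv
    simp only [mem_insert, mem_singleton] at hu hv
    rcases hu with rfl | rfl | rfl <;> rcases hv with rfl | rfl | rfl
    · exact absurd rfl huv
    · exact hpaE
    · exact hpbE
    · rw [pair_comm]; exact hpaE
    · exact absurd rfl huv
    · exact hab
    · rw [pair_comm]; exact hpbE
    · rw [pair_comm]; exact hab
    · exact absurd rfl huv
  have hSV : ({p, a, b} : Finset α) ⊆ V := by
    intro z hz
    simp only [mem_insert, mem_singleton] at hz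
    rcases hz with rfl | rfl | rfl
    · exact (hG _ hpaE).1 (by simp)
    · exact (hG _ hpaE).1 (by simp)
    · exact (hG _ hpbE).1 (by simp)
  have hS3 : #({p, a, b} : Finset α) = 3 := by
    rw [card_eq_three]
    exact ⟨p, a, b, hpa, hpb, hne, rfl⟩
  have hindsub : ∀ (k : ℕ) (J : Finset α), J ∈ ind (V \ {p, a, b}) (av E {p, a, b}) k →
      J ⊆ V ∧ Disjoint J {p, a, b} ∧ #J = k ∧ ∀ e ∈ E, Disjoint e {p, a, b} → ¬ e ⊆ J := by
    intro k J hJ
    rw [NT_mem_ind] at hJ
    refine ⟨hJ.1.1.trans sdiff_subset, ?_, hJ.1.2, ?_⟩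
    · exact disjoint_of_subset_left hJ.1.1 sdiff_disjoint
    · intro e he hd
      exact hJ.2 e (NT_mem_av.mpr ⟨he, hd⟩)
  refine ⟨?_, ?_, ?_, ?_, ?_⟩
  · intro e he
    rw [NT_mem_av] at he
    refine ⟨?_, (hG e he.1).2⟩
    intro z hz
    rw [mem_sdiff]
    exact ⟨(hG e he.1).1 hz, disjoint_left.mp he.2 hz⟩
  · have h1 := card_sdiff_add_card_eq_card hSV
    rw [hS3] at h1
    exact h1
  · have h1 : #(E.filter fun e => Disjoint e {p, a, b}) +
        #(E.filter fun e => ¬ Disjoint e {p, a, b}) = #E :=
      card_filter_add_card_filter_not (s := E) (p := fun e => Disjoint e {p, a, b})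
    have h2 : (E.filter fun e => ¬ Disjoint e {p, a, b}) =
        ({{p, a}, {p, b}, {a, b}} : Finset (Finset α)) := by
      ext e
      rw [mem_filter]
      simp only [mem_insert, mem_singleton]
      constructor
      · rintro ⟨he, hnd⟩
        exact hmeet e he hnd
      · rintro (rfl | rfl | rfl)
        · exact ⟨hpaE, not_disjoint_iff.mpr ⟨p, by simp, by simp⟩⟩
        · exact ⟨hpbE, not_disjoint_iff.mpr ⟨p, by simp, by simp⟩⟩
        · exact ⟨hab, not_disjoint_iff.mpr ⟨a, by simp, by simp⟩⟩
    have h3 : #({{p, a}, {p, b}, {a, b}} : Finset (Finset α)) = 3 := by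
      rw [card_eq_three]
      exact ⟨{p, a}, {p, b}, {a, b}, hd3, hd1, hd2, rfl⟩
    rw [h2, h3] at h1
    exact h1
  · intro k
    have hcard : #(({p, a, b} : Finset α) ×ˢ ind (V \ {p, a, b}) (av E {p, a, b}) k) =
        3 * #(ind (V \ {p, a, b}) (av E {p, a, b}) k) := by
      rw [card_product, hS3]
    rw [← hcard]
    apply card_le_card_of_injOn (fun q : α × Finset α => insert q.1 q.2)
    · intro q hq
      rw [mem_coe, mem_product] at hq
      obtain ⟨hx, hJ⟩ := hq
      obtain ⟨hJV, hJd, hJk, hJe⟩ := hindsub k _ hJ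
      have hxJ : q.1 ∉ q.2 := fun h => disjoint_left.mp hJd h hx
      rw [mem_coe, NT_mem_ind]
      refine ⟨⟨insert_subset (hSV hx) hJV, by rw [card_insert_of_notMem hxJ, hJk]⟩, ?_⟩
      intro e he hsub
      by_cases hd : Disjoint e {p, a, b}
      · apply hJe e he hd
        intro z hz
        have hz' := hsub hz
        rw [mem_insert] at hz'
        rcases hz' with h | h
        · exact absurd (h ▸ hx) (disjoint_left.mp hd hz)
        · exact h
      · have h1 : e ⊆ {q.1} := by
          intro z hz
          have hz' := hsub hz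
          rw [mem_insert] at hz'
          rcases hz' with h | h
          · rw [mem_singleton]; exact h
          · exact absurd (hmeet' e he hd hz) (disjoint_left.mp hJd h)
        have h2 := card_le_card h1
        rw [(hG e he).2, card_singleton] at h2
        omega
    · intro q hq q' hq' heq
      rw [mem_coe, mem_product] at hq hq'
      obtain ⟨hx, hJ⟩ := hq
      obtain ⟨hx', hJ'⟩ := hq'
      obtain ⟨hJV, hJd, hJk, hJe⟩ := hindsub k _ hJ
      obtain ⟨hJV', hJd', hJk', hJe'⟩ := hindsub k _ hJ'
      have heq' : insert q.1 q.2 = insert q'.1 q'.2 := heq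
      have e1 : q.1 = q'.1 := by
        have : q.1 ∈ insert q'.1 q'.2 := by rw [← heq']; exact mem_insert_self _ _
        rw [mem_insert] at this
        rcases this with h | h
        · exact h
        · exact absurd hx (disjoint_left.mp hJd' h)
      have hxJ : q.1 ∉ q.2 := fun h => disjoint_left.mp hJd h hx
      have hxJ' : q.1 ∉ q'.2 := fun h => disjoint_left.mp hJd' h hx
      have e2 : q.2 = q'.2 := by
        rw [← erase_insert hxJ, heq', ← e1, erase_insert hxJ']
      exact Prod.ext e1 e2
  · intro k hH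
    rcases hH with ⟨y, hyV, hy⟩ | hH
    · left
      refine ⟨y, ?_, ?_⟩
      · rw [mem_sdiff]
        refine ⟨hyV, ?_⟩
        intro hyS
        simp only [mem_insert, mem_singleton] at hyS
        rcases hyS with rfl | rfl | rfl
        · exact hy _ hpaE (by simp)
        · exact hy _ hpaE (by simp)
        · exact hy _ hpbE (by simp)
      · intro e he
        exact hy e (NT_mem_av.mp he).1
    · right
      intro x hx
      rw [mem_sdiff] at hx
      obtain ⟨I, hI, hxI⟩ := hH x hx.1
      rw [NT_mem_ind] at hI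
      have hone : #(I ∩ {p, a, b}) ≤ 1 := by
        rw [card_le_one]
        intro u hu v hv
        by_contra huv
        rw [mem_inter] at hu hv
        apply hI.2 _ (hpair u hu.2 v hv.2 huv)
        intro z hz
        simp only [mem_insert, mem_singleton] at hz
        rcases hz with rfl | rfl
        · exact hu.1
        · exact hv.1
      have hsum := card_sdiff_add_card_inter I ({p, a, b} : Finset α)
      obtain ⟨I', hI'sub, hI'k⟩ := exists_subset_card_eq (s := I \ {p, a, b}) (n := k)
        (by have := hI.1.2; omega)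
      refine ⟨I', ?_, fun h => hxI (sdiff_subset (hI'sub h))⟩
      rw [NT_mem_ind]
      refine ⟨⟨?_, hI'k⟩, ?_⟩
      · intro z hz
        have := mem_sdiff.mp (hI'sub hz)
        rw [mem_sdiff]
        exact ⟨hI.1.1 this.1, this.2⟩
      · intro e he hsub
        exact hI.2 e (NT_mem_av.mp he).1 (hsub.trans (hI'sub.trans sdiff_subset))

end Pool.Agent.helper41.CL
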