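import Pool.Agent.helper41.CL.SpecC

set_option autoImplicit false

namespace Pool.Agent.helper41.CL

open Finset

theorem EE (h1 : AZ_stmt) (h2 : SP_stmt) : EE_stmt := by
  intro α _ V E q e hG hq hE he
  have hsplit : #(inc E q) + #(E.filter fun f => q ∉ f) = #E := by
    unfold inc
    exact card_filter_add_card_filter_not (s := E) (p := fun f => q ∈ f)
  have hqV : q ∈ V := by
    have hpos : 0 < #(inc E q) := by omega
    obtain ⟨f, hf⟩ := card_pos.mp hpos
    have hf' := mem_filter.mp hf
    exact (hG f hf'.1).1 hf'.2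
  obtain ⟨m, rfl⟩ : ∃ m, e = m + 2 := ⟨e - 2, by omega⟩
  have hcard : #(V.erase q) = #V - 1 := card_erase_of_mem hqV
  have hG' : Gr (V.erase q) (E.filter fun f => q ∉ f) := by
    intro f hf
    have hf' := mem_filter.mp hf
    exact ⟨subset_erase.mpr ⟨(hG f hf'.1).1, hf'.2⟩, (hG f hf'.1).2⟩
  have hA := h1 α (V.erase q) (E.filter fun f => q ∉ f) m hG' (by omega) (by omega)
  have hS := h2 α V E q m hqV
  have e1 : m + 2 - 1 = m + 1 := by omega
  rw [e1, hS, pow_add]
  omega

end Pool.Agent.helper41.CL
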