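import Pool.Agent.helper71.CL.Spec

/-! SLP: a supporting line for the logarithm of the volume. -/

set_option autoImplicit false

open MeasureTheory Set Filter Topology
open scoped ENNReal
open Pool.Agent.helper81.CW

noncomputable section

namespace Pool.Agent.CL

theorem SLP (hV : VON_stmt) (hL : LGC_stmt) (hG : GRO_stmt) : SLP_stmt := by
  intro n C hC
  obtain ⟨hv1, hvpos, hfin⟩ := hV n C hC
  set v : ℝ → ℝ := fun ρ => (VV C ρ).toReal with hv
  have hofv : ∀ ρ, ENNReal.ofReal (v ρ) = VV C ρ := fun ρ => ENNReal.ofReal_toReal (hfin ρ).ne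
  have hmono : ∀ ρ σ : ℝ, ρ ≤ σ → v ρ ≤ v σ := by
    intro ρ σ h
    refine ENNReal.toReal_mono (hfin σ).ne (measure_mono ?_)
    intro x hx
    exact le_trans hx h
  have hv1pos : 0 < v 1 := by
    refine ENNReal.toReal_pos ?_ (hfin 1).ne
    rw [hv1]
    exact hvpos.ne'
  have hnn : ∀ ρ, 0 ≤ v ρ := fun ρ => ENNReal.toReal_nonneg
  have hpos : ∀ σ : ℝ, 1 ≤ σ → 0 < v σ := fun σ h => lt_of_lt_of_le hv1pos (hmono 1 σ h)
  -- real growth
  have hgro : ∀ σ : ℝ, 1 ≤ σ → v σ ≤ Real.exp (4 * n * (σ - 1)) * v 1 := by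
    intro σ h
    have h1 := hG n C σ hC h
    have h2 := ENNReal.toReal_mono (ENNReal.mul_ne_top ENNReal.ofReal_ne_top (hfin 1).ne) h1
    rwa [ENNReal.toReal_mul, ENNReal.toReal_ofReal (Real.exp_pos _).le] at h2
  set S : Set ℝ := (fun σ : ℝ => (Real.log (v σ) - Real.log (v 1)) / (σ - 1)) '' Ioi 1 with hS
  have hSn : S.Nonempty := ⟨_, 2, by norm_num [mem_Ioi], rfl⟩
  have hSb : ∀ s ∈ S, s ≤ 4 * n := by
    rintro _ ⟨σ, hσ, rfl⟩
    have hσ1 : 1 < σ := hσ
    rw [div_le_iff₀ (by linarith)]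
    have h1 := Real.log_le_log (hpos σ hσ1.le) (hgro σ hσ1.le)
    rw [Real.log_mul (Real.exp_pos _).ne' hv1pos.ne', Real.log_exp] at h1
    linarith
  have hSbdd : BddAbove S := ⟨4 * n, fun s hs => hSb s hs⟩
  have ha : ∀ σ : ℝ, 1 < σ → Real.log (v σ) - Real.log (v 1) ≤ sSup S * (σ - 1) := by
    intro σ hσ
    have h1 : (Real.log (v σ) - Real.log (v 1)) / (σ - 1) ≤ sSup S := le_csSup hSbdd ⟨σ, hσ, rfl⟩
    rwa [div_le_iff₀ (by linarith)] at h1
  have hfinal : ∀ ρ : ℝ, v ρ ≤ Real.exp (sSup S * (ρ - 1)) * v 1 →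
      VV C ρ ≤ ENNReal.ofReal (Real.exp (sSup S * (ρ - 1))) * VV C 1 := by
    intro ρ h
    rw [← hofv ρ, ← hofv 1, ← ENNReal.ofReal_mul (Real.exp_pos _).le]
    exact ENNReal.ofReal_le_ofReal h
  have hlog : ∀ ρ : ℝ, 0 < v ρ → Real.log (v ρ) ≤ sSup S * (ρ - 1) + Real.log (v 1) →
      v ρ ≤ Real.exp (sSup S * (ρ - 1)) * v 1 := by
    intro ρ h0 h
    rw [← Real.log_le_log_iff h0 (by positivity), Real.log_mul (Real.exp_pos _).ne' hv1pos.ne',
      Real.log_exp]
    exact h
  refine ⟨sSup S, ?_, csSup_le hSn hSb, ?_⟩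
  · have h1 : (Real.log (v 2) - Real.log (v 1)) / (2 - 1) ≤ sSup S :=
      le_csSup hSbdd ⟨2, by norm_num [mem_Ioi], rfl⟩
    refine le_trans ?_ h1
    have h2 := Real.log_le_log hv1pos (hmono 1 2 (by norm_num))
    have h3 : (0 : ℝ) < 2 - 1 := by norm_num
    exact div_nonneg (by linarith) h3.le
  · intro ρ hρ
    apply hfinal
    rcases lt_trichotomy ρ 1 with h | h | h
    · -- ρ < 1
      rcases (hnn ρ).eq_or_lt with h0 | h0
      · rw [← h0]
        positivity
      · apply hlog ρ h0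
        have hup : ∀ s ∈ S, s ≤ (Real.log (v 1) - Real.log (v ρ)) / (1 - ρ) := by
          rintro _ ⟨σ, hσ, rfl⟩
          have hσ1 : 1 < σ := hσ
          have hσρ : 0 < σ - ρ := by linarith
          set l : ℝ := (σ - 1) / (σ - ρ) with hl
          have hl0 : 0 < l := div_pos (by linarith) hσρ
          have hl1 : l < 1 := by
            rw [hl, div_lt_one hσρ]
            linarith
          have hle : l * (σ - ρ) = σ - 1 := div_mul_cancel₀ _ hσρ.ne'
          have h1 := hL n C ρ σ l hC.2.1 hC.1 hl0 hl1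
          have h2 : l * ρ + (1 - l) * σ = 1 := by linarith
          rw [h2] at h1
          have h3 := ENNReal.toReal_mono (hfin 1).ne h1
          rw [ENNReal.toReal_mul, ← ENNReal.toReal_rpow, ← ENNReal.toReal_rpow] at h3
          have h4 : v ρ ^ l * v σ ^ (1 - l) ≤ v 1 := h3
          have hσp := hpos σ hσ1.le
          have h5 := Real.log_le_log (by positivity) h4
          rw [Real.log_mul (by positivity) (by positivity), Real.log_rpow h0, Real.log_rpow hσp] at h5
          show (Real.log (v σ) - Real.log (v 1)) / (σ - 1) ≤ _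
          rw [div_le_div_iff₀ (by linarith) (by linarith)]
          have h6 := mul_le_mul_of_nonneg_right h5 hσρ.le
          have h7 : (l * Real.log (v ρ) + (1 - l) * Real.log (v σ)) * (σ - ρ) =
              (σ - 1) * Real.log (v ρ) + (1 - ρ) * Real.log (v σ) := by
            have : (1 - l) * (σ - ρ) = 1 - ρ := by linarith
            calc (l * Real.log (v ρ) + (1 - l) * Real.log (v σ)) * (σ - ρ)
                = (l * (σ - ρ)) * Real.log (v ρ) + ((1 - l) * (σ - ρ)) * Real.log (v σ) := by ring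
              _ = _ := by rw [hle, this]
          rw [h7] at h6
          linarith
        have h8 := csSup_le hSn hup
        rw [le_div_iff₀ (by linarith)] at h8
        linarith
    · rw [h]
      simp
    · apply hlog ρ (hpos ρ h.le)
      have := ha ρ h
      linarith

end Pool.Agent.CL
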